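import Mathlib

set_option autoImplicit false

namespace Pool.Agent.Results.MP_95a664_lc.NoMin

open Set

universe u

/-- An ideal of sets: contains the empty set, closed under subsets and finite unions. -/
def IsIdeal {X : Type} (I : Set (Set X)) : Prop :=
  ∅ ∈ I ∧ (∀ A ∈ I, ∀ B ⊆ A, B ∈ I) ∧ ∀ A ∈ I, ∀ B ∈ I, A ∪ B ∈ I

/-- `P ≤_T Q`: some map `Q → P` sends cofinal sets onto cofinal sets. -/
def TukeyLE (P : Type u) (Q : Type) [PartialOrder P] [PartialOrder Q] : Prop :=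
  ∃ f : Q → P, ∀ B : Set Q, IsCofinal B → IsCofinal (f '' B)

/-- `Q` is `I`-cohesive (for an ideal whose space is all of `X`). -/
def Cohesive {X : Type} (I : Set (Set X)) (Q : Type) [PartialOrder Q] : Prop :=
  ∃ q : X → Q, ∀ S : Set X, S ∉ I → ¬ BddAbove (q '' S)

lemma ev {P : Type u} {Q : Type} [PartialOrder P] [PartialOrder Q] {f : Q → P}
    (h : ∀ B : Set Q, IsCofinal B → IsCofinal (f '' B)) (p : P) : ∃ a, ∀ b, a ≤ b → p ≤ f b := by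
  by_contra! c
  obtain ⟨_, ⟨b, hb, rfl⟩, h'⟩ := h {b | ¬ p ≤ f b} (fun a => let ⟨b, h1, h2⟩ := c a; ⟨b, h2, h1⟩) p
  exact hb h'

abbrev W := (Ordinal.omega 1 : Ordinal.{0}).ToType

lemma bdd (a : ℕ → W) : ∃ b, ∀ n, a n ≤ b := by
  by_contra! c
  have h : IsCofinal (range a) := fun b => let ⟨n, hn⟩ := c b; ⟨_, ⟨n, rfl⟩, hn.le⟩
  have := (Order.cof_le h).trans (Cardinal.mk_range_le (f := a))
  rw [Ordinal.cof_toType, ← Cardinal.ord_aleph, Cardinal.isRegular_aleph_one.cof_ord, Cardinal.mk_nat] at this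
  exact this.not_gt Cardinal.aleph0_lt_aleph_one

/-- A proper ideal containing all singletons for which no poset characterises cohesiveness. -/
theorem result : ∃ (X : Type) (I : Set (Set X)), IsIdeal I ∧ ⋃₀ I = univ ∧ univ ∉ I ∧
    ∀ (P : Type u) (_ : PartialOrder P), ¬ ∀ (Q : Type) (_ : PartialOrder Q), Nonempty Q → IsDirected Q (· ≤ ·) →
      (TukeyLE P Q ↔ Cohesive I Q) := by
  have : Nonempty W := Ordinal.nonempty_toType_iff.2 (Ordinal.omega_pos 1).ne'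
  have : NoMaxOrder W := by
    have := Cardinal.noMaxOrder (c := Cardinal.aleph 1) Cardinal.aleph0_lt_aleph_one.le
    rwa [Cardinal.ord_aleph] at this
  obtain ⟨w0⟩ := ‹Nonempty W›
  have hu : univ ∉ {S : Set (ℕ × W) | ∃ n a, ∀ x ∈ S, x.1 ≤ n ∨ x.2 ≤ a} := fun ⟨n, a, h⟩ =>
    let ⟨b, hb⟩ := exists_gt a
    (h (n + 1, b) trivial).elim (by simp) hb.not_ge
  refine ⟨ℕ × W, {S | ∃ n a, ∀ x ∈ S, x.1 ≤ n ∨ x.2 ≤ a}, ⟨⟨0, w0, by simp⟩,
    fun A ⟨n, a, h⟩ B hB => ⟨n, a, fun x hx => h x (hB hx)⟩, fun A ⟨n, a, h⟩ B ⟨m, b, h'⟩ => ⟨max n m, max a b, ?_⟩⟩,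
    eq_univ_of_forall fun x => ⟨{x}, ⟨x.1, w0, by simp⟩, rfl⟩, hu, fun P _ h => ?_⟩
  · rintro x (hx | hx)
    exacts [(h x hx).imp le_max_of_le_left le_max_of_le_left, (h' x hx).imp le_max_of_le_right le_max_of_le_right]
  obtain ⟨f, hf⟩ := (h ℕ _ inferInstance inferInstance).2
    ⟨Prod.fst, fun S hS ⟨n, hn⟩ => hS ⟨n, w0, fun x hx => Or.inl (hn ⟨x, hx, rfl⟩)⟩⟩
  obtain ⟨g, hg⟩ := (h W _ inferInstance inferInstance).2
    ⟨Prod.snd, fun S hS ⟨a, ha⟩ => hS ⟨0, a, fun x hx => Or.inr (ha ⟨x, hx, rfl⟩)⟩⟩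
  choose a ha using fun n => ev hg (f n)
  obtain ⟨b, hb⟩ := bdd a
  obtain ⟨q, hq⟩ := (h Unit _ inferInstance inferInstance).1 ⟨fun _ => g b, fun B hB p => by
    obtain ⟨n, hn⟩ := ev hf p
    obtain ⟨x, hx, -⟩ := hB ()
    exact ⟨_, ⟨x, hx, rfl⟩, (hn n le_rfl).trans (ha n b (hb n))⟩⟩
  exact hq univ hu (OrderTop.bddAbove _)

end Pool.Agent.Results.MP_95a664_lc.NoMin
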